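import Pool.Agent.K7.H9.NumC

/-!
# The numerical standard conjecture of Hodge type for an abelian variety does not depend on the
polarization

`W` is a Weil cohomology theory with algebraically closed coefficient field, on a class of smooth
projective varieties over an arbitrary field `k`. Let `A` be an abelian variety of dimension `g`
(only this is used: `H^*(A)` is generated by `H^1(A)`, on which the addition acts by
`m^* x = pr_1^* x + pr_2^* x`), and let `D`, `E` be divisors on `A` all of whose mixed intersection
numbers `D ^ i · E ^ (g - i)`, `0 ≤ i ≤ g`, are positive (for example, two ample divisors). Then, for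
every `n ≤ g / 2`, the form `(-1) ^ n α · β · D ^ (g - 2 n)` is positive definite on the primitive
numerical classes of codimension `n` relative to `D` if and only if the form
`(-1) ^ n α · β · E ^ (g - 2 n)` is positive definite on the primitive classes relative to `E`.

No Lefschetz conjecture is assumed, and no condition is put on the exotic classes of `A`.
-/

open CategoryTheory AlgebraicGeometry

universe u v

namespace Pool.Agent.Results.MP_c0b458_ag.IndependenceOfPolarization

open Pool.Agent.H914 Pool.Agent.H914.VarClass Pool.Agent.H914.VarClass.Obj Pool.Agent.R908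
  Pool.Agent.K7.H9

theorem result {k : Type u} [Field k] {𝒱 : VarClass k} {ops : CycleOps 𝒱}
    {W : WeilCohomology.{u, v} ops} [IsAlgClosed W.K] {A : 𝒱.Obj} {m : A.prod A ⟶ A}
    (hA : IsAbelianLike W A m) {D E : A.Cycles} (hD : A.IsCyc 1 D) (hE : A.IsCyc 1 E)
    (hpos : ∀ i ≤ A.dim, 0 < mixedNumber ops A D E i) {n : ℕ} (hn : 2 * n ≤ A.dim) :
    NumHodge ops A D n ↔ NumHodge ops A E n :=
  numHodge_iff hA hD hE hpos hn

end Pool.Agent.Results.MP_c0b458_ag.IndependenceOfPolarization
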