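import Pool.Agent.K7.H9.NumE

/-!
# The numerical standard conjecture of Hodge type for abelian varieties follows from the middle
codimension, for one polarization

Let `𝒜` be a class of abelian varieties over a field `k` which is closed under products and contains
an elliptic curve (for example, all abelian varieties over `k`), and let `Amp A` be the ample
divisors on `A`. Suppose that for every `A` in `𝒜` of even dimension `2 n` the intersection form
`(-1) ^ n α · β` is positive definite on the primitive numerical classes of the middle codimension
`n` for **one** ample divisor on `A`. Then for all `A` in `𝒜`, of any dimension `g`, in all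
codimensions `n ≤ g / 2` and for **all** ample divisors `D` on `A` the form
`(-1) ^ n α · β · D ^ (g - 2 n)` is positive definite on the primitive numerical classes.
-/

open CategoryTheory AlgebraicGeometry

universe u v

namespace Pool.Agent.Results.MP_c0b458_ag.MiddleCodimension

open Pool.Agent.H914 Pool.Agent.H914.VarClass Pool.Agent.H914.VarClass.Obj Pool.Agent.R908
  Pool.Agent.K7.H9

theorem result {k : Type u} [Field k] {𝒱 : VarClass k} {ops : CycleOps 𝒱}
    {W : WeilCohomology.{u, v} ops} [IsAlgClosed W.K] {𝒜 : 𝒱.Obj → Prop}
    {Amp : ∀ A : 𝒱.Obj, A.Cycles → Prop} (h : IsAbelianClass W 𝒜 Amp) :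
    (∀ A, 𝒜 A → ∀ n, A.dim = 2 * n → (∃ D, Amp A D) → ∃ D, Amp A D ∧ NumHodge ops A D n) ↔
      ∀ A, 𝒜 A → ∀ D, Amp A D → ∀ n, 2 * n ≤ A.dim → NumHodge ops A D n :=
  middle_iff h

end Pool.Agent.Results.MP_c0b458_ag.MiddleCodimension
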