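import Mathlib
import Pool.Agent.K7.H7.AS.Nondeg
import Pool.Agent.K7.H7.AS.Num
import Pool.Agent.TH170.GS.Rel

/-!
# The numerical conjecture of Hodge type for abelian varieties over finite fields with rigid slopes, for
all CM fields and all CM types

Over an algebraic closure of the field with `p` elements each abelian variety is isogenous to the
reduction of an abelian variety of CM type (Honda, Tate). So an abelian variety over the field with
`p ^ a` elements is modelled by `RedAV`: a finite product of CM types `(E i, Φ i)` with Weil numbers
`π i ∈ E i` that satisfy the formula of Shimura and Taniyama; its cohomology of degree `n`, with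
coefficients in an algebraically closed field `Ω`, consists of the alternating `n`-forms on
`TM Ω Y = Ω ⊗ H_1`, on which the Frobenius endomorphism acts by `π`. We fix an isomorphism `ν` of the
algebraic closure of `ℚ_p` with `ℂ`; it defines a `p`-adic valuation of `ℂ`.

Let `K` be a CM field of degree `2 g`, and let `M` be a function with integral values on the complex
embeddings of `K`, invariant under complex conjugation. A CM type `Φ` of `K`, `M` and a real number
`κ ≠ 0` prescribe the slopes `(a + κ M) / 2` (at the embeddings in `Φ`) and `(a - κ M) / 2` (outside of
`Φ`) of a Weil number in `K`. Every Weil number in `K` has slopes of this form. The weights `M` are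
rigid (`IsRigid`) if one of the following holds (then `M` is the distance of the slopes from `a / 2`, and
nothing is assumed on the signs, that is on `Φ`, or on the Galois group and the subfields of `K`).

* `dominant`: one weight is larger than the sum of the other weights: for some `φ₀` the sum of `|M φ|`
  over the embeddings `φ` different from `φ₀` and its conjugate is less than `2 |M φ₀|` (each weight
  occurs in this sum twice, for `φ` and its conjugate);
* `oneUnit`: for some prime number `l` and some `k` all weights are divisible by `l ^ k` and all but
  the one at `φ₀` (and its conjugate) by `l ^ (k + 1)`;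
* `oneEven`: all weights are divisible by `2 ^ k`, the weight at `φ₀` is divisible by `2 ^ (k + 1)` and
  the other weights are not, and `g` is even, or no sum of the `g` weights with signs vanishes, or `K`
  contains no imaginary quadratic field;
* `primePower`: `g` is a power of the prime number `l`, all weights are divisible by `l ^ k`, and no
  sum of the `g` weights with signs is divisible by `l ^ (k + 1)`.

**Theorem.** Let `K i` be finitely many CM fields that are pairwise independent (for `i ≠ k` and all
complex embeddings `φ` of `K i` and `ψ` of `K k` some automorphism of `ℂ` is the identity on `φ (K i)` and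
the complex conjugation on `ψ (K k)`; this is no condition for one field), with rigid weights `M i` and
any CM types `Φ i`. Let `Y` be any abelian variety each of whose factors is supersingular or has a
Frobenius endomorphism some power of which is, for some `i`, a Weil number in `K i` with the slopes
prescribed by `Φ i`, `M i` and some real number `κ i ≠ 0` (`OfTypes`). Then the numerical conjecture of
Hodge type holds for `Y` and for all polarizations `E`: for each cycle `z` of codimension `r`, such that
`z · E ^ (m + 1)` is numerically equivalent to zero, `dim Y = 2 r + m`, and `z` is not, the number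
`(-1) ^ r z · z · E ^ m` is positive. Moreover cycles on `Y` that are numerically equivalent to zero are
homologically equivalent to zero.

The space of the classes of algebraic cycles of degree `card κ` on `Y`, with rational coefficients, is
`C Y κ`. The properties of these spaces that are used are known theorems: they are closed under sums,
cup products, pull-backs and push-forwards, they contain the Hodge classes of degree two of the
liftings (Lefschetz) and the split Weil classes of degree four and six (Markman; not needed here), and
the Tate classes of degree two are combinations of such classes (Tate) (`IsCycleSystem`); the positivity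
of the Rosati involution (Weil, `IsRosatiPositive`); classes of cycles are Tate classes over finite
extensions (`AreTate`). The polarizations are those compatible with the complex multiplications of the
lifting (`IsPolar`, with the Riemann form `∑ i, Tr (α i * conj (x i) * y i)`); by theorems of Honda,
Tate and Zink each polarized abelian variety over an algebraic closure of a finite field is isogenous
to the reduction of such a polarized abelian variety.

The proof. The weights are rigid, so that the sign functions of the types, multiplied by the weights,
satisfy no relations (`Pool.Agent.K7.H7.AS.nondeg`); so all relations between the Frobenius eigenvalues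
come from pairs of complex conjugate ones, and all Tate classes are combinations of products of classes
of divisors (starting library `TH170`, `TH117`). For these the positivity is known (starting library
`TH117.PO`), and numerical and homological equivalence agree.
-/

set_option autoImplicit false

namespace Pool.Agent.Results.MP_c0b458_ag.RigidSlopes

open NumberField Module Pool.Agent.H204R3.CM Pool.Agent.H977R3.CM Pool.Agent.TH170
  Pool.Agent.K7.H7.AS

open Pool.Agent.W495.TA Pool.Agent.W547.KB Pool.Agent.TH117.PO

/-- The numerical conjecture of Hodge type for `Y`, for the classes of cycles in `C`: if `z ∪ E ^ (m + 1)`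
is numerically equivalent to zero and `z` is not, then `(-1) ^ r z ∪ z ∪ E ^ m > 0`, where `E` is the
class of the polarization given by `α`, and `dim Y = 2 r + m`. -/
def NumericalHodge {p : ℕ} [Fact p.Prime] {ν : PadicAlgCl p ≃+* ℂ} (Ω : Type) [Field Ω] [CharZero Ω]
    (C : (Y : RedAV p ν) → (κ : Type) → ((TM Ω Y) [⋀^κ]→ₗ[Ω] Ω) → Prop) (Y : RedAV p ν) : Prop :=
  ∀ α : Y.X.H1, IsPolar Y.X α → ∀ r m : ℕ, 2 * (2 * r + m) = finrank ℚ Y.X.H1 →
    ∀ z : (TM Ω Y) [⋀^Fin r × Fin 2]→ₗ[Ω] Ω, C Y (Fin r × Fin 2) z → IsNumPrim Ω C α m z →
      ¬ IsNumTrivial Ω C z → IsPosClass α m z

/-- Classes of cycles on `Y` that are numerically equivalent to zero are zero. -/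
def NumericalIsHomological {p : ℕ} [Fact p.Prime] {ν : PadicAlgCl p ≃+* ℂ} (Ω : Type) [Field Ω]
    [CharZero Ω] (C : (Y : RedAV p ν) → (κ : Type) → ((TM Ω Y) [⋀^κ]→ₗ[Ω] Ω) → Prop)
    (Y : RedAV p ν) : Prop :=
  ∀ (r : ℕ) (z : (TM Ω Y) [⋀^Fin r × Fin 2]→ₗ[Ω] Ω), C Y (Fin r × Fin 2) z →
    IsNumTrivial Ω C z → z = 0

/-- **The numerical conjecture of Hodge type for all abelian varieties over finite fields with rigid
slopes.** -/
theorem result (p : ℕ) [Fact p.Prime] (ν : PadicAlgCl p ≃+* ℂ) (I : Type) [Fintype I]
    (K : I → Type) [∀ i, Field (K i)] [∀ i, NumberField (K i)] [∀ i, IsCMField (K i)]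
    (hK : PairwiseIndep K) (M : ∀ i, (K i →+* ℂ) → ℤ)
    (hM : ∀ i φ, M i (ComplexEmbedding.conjugate φ) = M i φ) (hR : ∀ i, IsRigid (M i))
    (Φ : ∀ i, Set (K i →+* ℂ)) (hΦ : ∀ i, IsCMType (Φ i))
    (Ω : Type) [Field Ω] [CharZero Ω] [IsAlgClosed Ω]
    (C : (Y : RedAV p ν) → (κ : Type) → ((TM Ω Y) [⋀^κ]→ₗ[Ω] Ω) → Prop) (hC : IsCycleSystem Ω C)
    (hRos : IsRosatiPositive Ω C) (hT : AreTate Ω C) (Y : RedAV p ν)
    (hY : GS.OfTypes K M Φ Y) : NumericalHodge Ω C Y ∧ NumericalIsHomological Ω C Y := by
  have h : ∀ (s m : ℕ) (f : (TM Ω Y) [⋀^Fin (2 * m)]→ₗ[Ω] Ω), 0 < s → IsTateClass Ω Y s m f →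
      Alg Ω Y (Fin (2 * m)) f := fun s m f hs hf =>
    TH117.BL.elementary Y (GS.elementary_of_types hK hM hΦ
      (fun i => nondeg (hM i) (hR i) (hΦ i)) hY) Ω Y (fun k => Or.inr
      ⟨k, RingHom.id _, 1, 1, one_pos, one_pos, rfl, rfl⟩) s m hs f hf
  refine ⟨fun α hα r m hrm z hz hp hn => numHodge hC hRos hT h hα hrm hz hp hn,
    fun r z hz hn => nondegenerate hC (alg_of_card hC hT h r (pairEquiv r) hz) hn⟩

end Pool.Agent.Results.MP_c0b458_ag.RigidSlopes
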