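import Pool.Agent.K7.H9.R4C
import Pool.Agent.K7.H9.R4Defs

/-!
# The numerical standard conjecture of Hodge type for abelian varieties with supersingular factors

Let `A` be an abelian variety over a field `k` with a polarization `D`, and let `P` be a family of
polarized varieties of supersingular type, for example a single supersingular elliptic curve `E`
over an algebraically closed field. If the numerical conjecture of Hodge type holds for `A` and for
the products `A × P j` with one member of the family, then it holds for `A × Q` for all products `Q`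
of members of the family, with any number of factors. In particular the conjecture for `A` and
`A × E` implies the conjecture for all `A × E ^ n`.
-/

open CategoryTheory AlgebraicGeometry

universe u v w

namespace Pool.Agent.Results.MP_c0b458_ag.SupersingularFactors

open Pool.Agent.H914 Pool.Agent.H914.VarClass Pool.Agent.H914.VarClass.Obj Pool.Agent.R908
  Pool.Agent.H281R3.HT Pool.Agent.K7.H9

theorem result {k : Type u} [Field k] {𝒱 : VarClass k} {ops : CycleOps 𝒱}
    {W : WeilCohomology.{u, v} ops} {ι : Type w} {P : ι → Polarized 𝒱}
    (hP : IsSupersingularFamily W P) {A : 𝒱.Obj} {m : A.prod A ⟶ A} (hA : IsAbelianLike W A m)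
    {D : A.Cycles} (hD : A.IsCyc 1 D)
    (hdeg : 0 < A.V.degCycle (divPow ops D A.dim A.V.fundCycle))
    (H0 : ∀ n, 2 * n ≤ A.dim → NumHodge ops A D n)
    (H1 : ∀ j n, 2 * n ≤ A.dim + (P j).X.dim → NumHodge ops (A.prod (P j).X)
      (ops.pull (fst A (P j).X) D + ops.pull (snd A (P j).X) (P j).D) n)
    {Q : Polarized 𝒱} (hQ : IsProduct ops P Q) {n : ℕ} (hn : 2 * n ≤ A.dim + Q.X.dim) :
    NumHodge ops (A.prod Q.X) (ops.pull (fst A Q.X) D + ops.pull (snd A Q.X) Q.D) n :=
  hodge_supersingular hP.cyc hP.hardLefschetz hP.lefschetzB hP.mid hP.ext hP.hodge hP.hodge_prod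
    hA hD hdeg H0 H1 hQ hn

end Pool.Agent.Results.MP_c0b458_ag.SupersingularFactors
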